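import Mathlib
import Pool.Agent.Results.MP_f91ac8_co.NotRegular

/-!
# Palindromic length of a binary automatic word

(helper350) The centres `p d k = (d+1) d^k + [k even]` are those of the ternary word of
`Results/MP_f91ac8_co/NotRegular`. The binary word has a single one at `p d k` for even `k`, and
three consecutive ones around `p d k` for odd `k`. Its prefix palindromic length is given by the
same formula, except at one position.
-/

set_option autoImplicit false
set_option linter.unusedSectionVars false

namespace Pool.Agent.Y350.PP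

open Pool.Agent.Results.MP_f91ac8_co.NotRegular

section arith
variable {d : ℕ} (hd : 2 ≤ d)
include hd

theorem p_one : p d 1 = (d + 1) * d := by rw [p_odd hd (by norm_num), pow_one]

theorem six_le : 6 ≤ p d 1 := by
  rw [p_one hd]; nlinarith

theorem gap5 (k : ℕ) : pp d k + 5 ≤ pp d (k + 1) := by
  rcases Nat.eq_zero_or_pos k with rfl | hk
  · have := six_le hd
    have e : pp d (0 + 1) = p d 1 := (p_eq_pp hd (by omega)).symm
    rw [e]
    have e0 : pp d 0 = 0 := by unfold pp; simp
    omega
  · rw [← p_eq_pp hd hk, ← p_eq_pp hd (show 1 ≤ k + 1 by omega)]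
    have h1 : p d k ≤ (d + 1) * d ^ k + 1 := by unfold p; split_ifs <;> omega
    have h2 : (d + 1) * d ^ (k + 1) ≤ p d (k + 1) := by unfold p; omega
    have h3 := pow_succ_ge hd k
    have h4 : d ^ 1 ≤ d ^ k := Nat.pow_le_pow_right (by omega) hk
    rw [pow_one] at h4
    have h5 : (d + 1) * (2 * d ^ k) ≤ (d + 1) * d ^ (k + 1) := Nat.mul_le_mul_left _ h3
    have h6 : 3 * 2 ≤ (d + 1) * d ^ k := Nat.mul_le_mul (by omega) (by omega)
    nlinarith

theorem pgap4 {J : ℕ} (hJ : 2 ≤ J) : 2 * p d (J - 1) + 4 ≤ p d J + p d 1 := by
  obtain ⟨j, rfl⟩ : ∃ j, J = j + 1 := ⟨J - 1, by omega⟩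
  rw [Nat.add_sub_cancel]
  have h1 : p d j ≤ (d + 1) * d ^ j + 1 := by unfold p; split_ifs <;> omega
  have h2 : (d + 1) * d ^ (j + 1) ≤ p d (j + 1) := by unfold p; omega
  have h4 := pow_succ_ge hd j
  have h5 := six_le hd
  have h6 : (d + 1) * (2 * d ^ j) ≤ (d + 1) * d ^ (j + 1) := Nat.mul_le_mul_left _ h4
  nlinarith

theorem z_ge {k : ℕ} (hk : 1 ≤ k) : p d k + 1 ≤ z d k := by
  have h0 := lt_dpow hd k
  have hs : d ^ (k + 1) = d * d ^ k := by rw [pow_succ, mul_comm]
  rcases Nat.mod_two_eq_zero_or_one k with hk2 | hk2
  · have h1 := z_even hd hk2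
    rw [p_even hd hk2]
    rw [hs] at h1
    have h2 : d ^ 2 ≤ d ^ k := Nat.pow_le_pow_right (by omega) (by omega)
    have h3 : 2 * d ≤ d ^ 2 := by nlinarith
    have h4 : d ^ k + d ^ k ≤ d * d ^ k := by nlinarith
    have h5 : (d + 1) * d ^ k = d * d ^ k + d ^ k := by ring
    omega
  · have h1 := z_odd hd hk2
    rw [p_odd hd hk2]
    rw [hs] at h1
    have h4 : d ^ k + d ^ k ≤ d * d ^ k := by nlinarith
    have h5 : (d + 1) * d ^ k = d * d ^ k + d ^ k := by ring
    omega

theorem z_lt2 (k : ℕ) : z d k + 2 ≤ p d (k + 1) := by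
  have h0 := lt_dpow hd (k + 1)
  have h5 : (d + 1) * d ^ (k + 1) = d * d ^ (k + 1) + d ^ (k + 1) := by ring
  have h4 : d ^ (k + 1) + d ^ (k + 1) ≤ d * d ^ (k + 1) := by nlinarith
  rcases Nat.mod_two_eq_zero_or_one k with hk2 | hk2
  · have h1 := z_even hd hk2
    rw [p_odd hd (k := k + 1) (by omega)]
    omega
  · have h1 := z_odd hd hk2
    rw [p_even hd (k := k + 1) (by omega)]
    have h2 : d ^ 2 ≤ d ^ (k + 1) := Nat.pow_le_pow_right (by omega) (by omega)
    have h3 : 2 * d ≤ d ^ 2 := by nlinarith
    omega

theorem z_lt3 {k : ℕ} (hk2 : k % 2 = 0) : z d k + 3 ≤ p d (k + 1) := by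
  have h0 := lt_dpow hd (k + 1)
  have h5 : (d + 1) * d ^ (k + 1) = d * d ^ (k + 1) + d ^ (k + 1) := by ring
  have h4 : d ^ (k + 1) + d ^ (k + 1) ≤ d * d ^ (k + 1) := by nlinarith
  have h1 := z_even hd hk2
  rw [p_odd hd (k := k + 1) (by omega)]
  omega

theorem z_zero : z d 0 = 0 := by unfold z; simp

theorem pm {k l : ℕ} (hk : 1 ≤ k) (h : k ≤ l) : p d k ≤ p d l := by
  rw [p_eq_pp hd hk, p_eq_pp hd (by omega)]
  exact (pp_strictMono hd).monotone h

theorem pgap5 {k : ℕ} (hk : 1 ≤ k) : p d k + 5 ≤ p d (k + 1) := by
  rw [p_eq_pp hd hk, p_eq_pp hd (by omega)]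
  exact gap5 hd k

end arith

/-- the value of the palindromic length of the binary word -/
def vb {d : ℕ} (hd : 2 ≤ d) (n : ℕ) : ℕ := v hd n + (if n + 1 = p d 1 then 1 else 0)

/-- the description of the binary word -/
def IsB (d : ℕ) (u : ℕ → Bool) : Prop :=
  ∀ x, u x = true ↔ ∃ k, 1 ≤ k ∧ (x = p d k ∨ (k % 2 = 1 ∧ (x + 1 = p d k ∨ x = p d k + 1)))

section level
variable {d : ℕ} (hd : 2 ≤ d) {u : ℕ → Bool} (U : IsB d u)
include hd U

/-- near the centre `b` the ones are those of the block `b` -/
theorem loc {b x : ℕ} (hb : 1 ≤ b) (h1 : b = 1 ∨ p d (b - 1) + 2 ≤ x) (h2 : x + 2 ≤ p d (b + 1)) :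
    u x = true ↔ (x = p d b ∨ (b % 2 = 1 ∧ (x + 1 = p d b ∨ x = p d b + 1))) := by
  constructor
  · intro h
    obtain ⟨k, hk, hx⟩ := (U x).1 h
    have hkb : k = b := by
      rcases lt_trichotomy k b with h3 | h3 | h3
      · rcases h1 with h1 | h1
        · omega
        · have := pm hd hk (show k ≤ b - 1 by omega)
          omega
      · exact h3
      · have := pm hd (show 1 ≤ b + 1 by omega) (show b + 1 ≤ k by omega)
        omega
    rw [hkb] at hx
    exact hx
  · intro h
    exact (U x).2 ⟨b, hb, h⟩

theorem loc0 {x : ℕ} (h2 : x + 2 ≤ p d 1) : u x = false := by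
  by_contra hcon
  rw [Bool.not_eq_false] at hcon
  obtain ⟨k, hk, hx⟩ := (U x).1 hcon
  have := pm hd le_rfl hk
  omega

theorem one_mid {k : ℕ} (hk : 1 ≤ k) : u (p d k) = true := (U _).2 ⟨k, hk, Or.inl rfl⟩

theorem pal_center {b m n : ℕ} (hb : 1 ≤ b) (h1 : b = 1 ∨ p d (b - 1) + 1 ≤ m)
    (h2 : n + 2 ≤ p d (b + 1)) (hc : m + n + 1 = 2 * p d b) : Pal u m n := by
  intro x hx1 hx2
  have e1 := loc hd U (b := b) (x := x) hb (by omega) (by omega)
  have e2 := loc hd U (b := b) (x := m + n + 1 - x) hb (by omega) (by omega)
  rw [Bool.eq_iff_iff, e1, e2]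
  omega

theorem pal_zero' {m n : ℕ} (h : ∀ x, m < x → x ≤ n → u x = false) : Pal u m n := by
  intro x h1 h2
  rw [h x h1 h2, h _ (by omega) (by omega)]

theorem no_two' {m n : ℕ} (hpal : Pal u m n) (hJ : 2 ≤ level hd n)
    (hm : m < p d (level hd n - 1)) : False := by
  obtain ⟨J, hJe⟩ : ∃ J, J = level hd n := ⟨_, rfl⟩
  rw [← hJe] at hJ hm
  have hJn : p d J ≤ n := by rw [p_eq_pp hd (by omega), hJe]; exact level_le hd n
  have hnJ : n < p d (J + 1) := by
    rw [p_eq_pp hd (by omega), hJe]; exact lt_level hd n
  obtain ⟨j, rfl⟩ : ∃ j, J = j + 1 := ⟨J - 1, by omega⟩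
  rw [Nat.add_sub_cancel] at hm
  have g1 := pgap5 hd (show 1 ≤ j by omega)
  have g2 := pgap5 hd (show 1 ≤ j + 1 by omega)
  have g3 := pgap4 hd (show 2 ≤ j + 1 by omega)
  have g4 := pgap4 hd (show 2 ≤ j + 1 + 1 by omega)
  rw [Nat.add_sub_cancel] at g3 g4
  have g5 := pm hd le_rfl (show 1 ≤ j by omega)
  have y1 : u (m + n + 1 - p d (j + 1)) = true := by
    rw [← hpal _ (by omega) hJn]; exact one_mid hd U (by omega)
  have y2 : u (m + n + 1 - p d j) = true := by
    rw [← hpal _ hm (by omega)]; exact one_mid hd U (by omega)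
  obtain ⟨a, ha, ha'⟩ := (U _).1 y1
  obtain ⟨b, hb, hb'⟩ := (U _).1 y2
  have hbJ : b ≤ j + 2 := by
    by_contra hcon
    have := pm hd (show 1 ≤ j + 2 + 1 by omega) (show j + 2 + 1 ≤ b by omega)
    have g6 := pgap5 hd (show 1 ≤ j + 2 by omega)
    have e : j + 1 + 1 = j + 2 := rfl
    rw [e] at hnJ
    omega
  have e : j + 1 + 1 = j + 2 := rfl
  rw [e] at hnJ g2 g4
  rcases Nat.lt_or_ge b (j + 1) with h3 | h3
  · -- too far to the left
    have g7 := pm hd hb (show b ≤ j by omega)
    have g8 := pm hd le_rfl ha
    omega
  · rcases Nat.eq_or_lt_of_le h3 with h4 | h4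
    · rw [← h4] at hb'
      -- the two blocks are exchanged
      rcases Nat.mod_two_eq_zero_or_one j with hj | hj
      · -- block `j + 1` has three ones
        have haj : a = j := by
          rcases lt_trichotomy a j with h5 | h5 | h5
          · have := pm hd ha (show a ≤ j - 1 by omega)
            have g9 := pgap5 hd (show 1 ≤ j - 1 by omega)
            rw [show j - 1 + 1 = j by omega] at g9
            omega
          · exact h5
          · have := pm hd (show 1 ≤ j + 1 by omega) (show j + 1 ≤ a by omega)
            omega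
        rw [haj] at ha'
        have hsum : m + n + 1 = p d j + p d (j + 1) := by omega
        have h6 : u (p d (j + 1) - 1) = true :=
          (U _).2 ⟨j + 1, by omega, Or.inr ⟨by omega, Or.inl (by omega)⟩⟩
        rw [hpal _ (by omega) (by omega)] at h6
        obtain ⟨c, hc, hc'⟩ := (U _).1 h6
        have hcj : c = j := by
          rcases lt_trichotomy c j with h5 | h5 | h5
          · have := pm hd hc (show c ≤ j - 1 by omega)
            have g9 := pgap5 hd (show 1 ≤ j - 1 by omega)
            rw [show j - 1 + 1 = j by omega] at g9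
            omega
          · exact h5
          · have := pm hd (show 1 ≤ j + 1 by omega) (show j + 1 ≤ c by omega)
            omega
        rw [hcj] at hc'
        omega
      · -- block `j` has three ones
        have hsum : m + n + 1 = p d j + p d (j + 1) := by omega
        have h6 : u (p d j + 1) = true :=
          (U _).2 ⟨j, by omega, Or.inr ⟨by omega, Or.inr (by omega)⟩⟩
        rw [hpal _ (by omega) (by omega)] at h6
        obtain ⟨c, hc, hc'⟩ := (U _).1 h6
        have hcj : c = j + 1 := by
          rcases lt_trichotomy c (j + 1) with h5 | h5 | h5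
          · have := pm hd hc (show c ≤ j by omega)
            omega
          · exact h5
          · have := pm hd (show 1 ≤ j + 2 by omega) (show j + 2 ≤ c by omega)
            omega
        rw [hcj] at hc'
        omega
    · have h5 : b = j + 2 := by omega
      rw [h5] at hb'
      rcases Nat.lt_or_ge a (j + 2) with h6 | h6
      · have := pm hd ha (show a ≤ j + 1 by omega)
        omega
      · have := pm hd (show 1 ≤ j + 2 by omega) h6
        omega

theorem center' {m n k : ℕ} (hpal : Pal u m n) (hk : 1 ≤ k) (hm : level hd m = k - 1)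
    (hn : level hd n = k) (hz : m = z d (k - 1)) : m + n + 1 = 2 * p d k := by
  have h1 : p d k ≤ n := by rw [p_eq_pp hd hk, ← hn]; exact level_le hd n
  have hnk : n < p d (k + 1) := by
    rw [p_eq_pp hd (by omega), ← hn]; exact lt_level hd n
  have z2 := z_lt2 hd (k - 1)
  rw [Nat.sub_add_cancel hk, ← hz] at z2
  have g5 := pgap5 hd hk
  have y1 : u (m + n + 1 - p d k) = true := by
    rw [← hpal _ (by omega) h1]; exact one_mid hd U hk
  obtain ⟨l, hl, hl'⟩ := (U _).1 y1
  have hlk : k ≤ l := by
    by_contra hcon
    have h3 := pm hd hl (show l ≤ k - 1 by omega)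
    have h4 := z_ge hd (show 1 ≤ k - 1 by omega)
    rw [← hz] at h4
    omega
  have hlk2 : l ≤ k + 1 := by
    by_contra hcon
    have h3 := pm hd (show 1 ≤ k + 1 + 1 by omega) (show k + 1 + 1 ≤ l by omega)
    have h4 := pgap5 hd (show 1 ≤ k + 1 by omega)
    omega
  rcases Nat.eq_or_lt_of_le hlk with h5 | h5
  · rw [← h5] at hl'
    rcases hl' with h6 | ⟨ho, h6 | h6⟩
    · omega
    · -- reflected to the left
      have z3 := z_lt3 hd (k := k - 1) (by omega)
      rw [Nat.sub_add_cancel hk, ← hz] at z3
      have h7 : u (p d k + 1) = true := (U _).2 ⟨k, hk, Or.inr ⟨ho, Or.inr rfl⟩⟩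
      rw [hpal _ (by omega) (by omega)] at h7
      obtain ⟨c, hc, hc'⟩ := (U _).1 h7
      rcases lt_trichotomy c k with h8 | h8 | h8
      · have h9 := pm hd hc (show c ≤ k - 1 by omega)
        have g9 := pgap5 hd (show 1 ≤ k - 1 by omega)
        rw [Nat.sub_add_cancel hk] at g9
        omega
      · rw [h8] at hc'
        omega
      · have h9 := pm hd (show 1 ≤ k + 1 by omega) (show k + 1 ≤ c by omega)
        omega
    · -- reflected to the right
      have h7 : u (p d k - 1) = true := (U _).2 ⟨k, hk, Or.inr ⟨ho, Or.inl (by omega)⟩⟩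
      rw [hpal _ (by omega) (by omega)] at h7
      obtain ⟨c, hc, hc'⟩ := (U _).1 h7
      rcases lt_trichotomy c k with h8 | h8 | h8
      · have h9 := pm hd hc (show c ≤ k by omega)
        omega
      · rw [h8] at hc'
        omega
      · have h9 := pm hd (show 1 ≤ k + 1 by omega) (show k + 1 ≤ c by omega)
        omega
  · have h6 : l = k + 1 := by omega
    rw [h6] at hl'
    omega

theorem level_zero {n : ℕ} (h : n < p d 1) : level hd n = 0 := by
  apply level_unique hd
  · unfold pp; simp
  · rw [← p_eq_pp hd (by omega)]; exact h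

theorem v_le (n : ℕ) : v hd n ≤ level hd n + 1 := by
  unfold v; split_ifs <;> omega

theorem lower' : ∀ m n, m < n → Pal u m n → vb hd n ≤ vb hd m + 1 := by
  intro m n hmn hpal
  by_cases hn1 : n + 1 = p d 1
  · -- the first one
    have h6 := six_le hd
    have hun : u n = true := (U _).2 ⟨1, le_rfl, Or.inr ⟨rfl, Or.inl hn1⟩⟩
    rw [hpal _ hmn le_rfl] at hun
    have hm : m + 1 = n := by
      by_contra hcon
      rw [loc0 hd U (x := m + n + 1 - n) (by omega)] at hun
      exact absurd hun (by decide)
    have l1 := level_zero hd U (n := n) (by omega)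
    have l2 := level_zero hd U (n := m) (by omega)
    have := v_le hd U n
    unfold vb
    rw [l1] at this
    have hv : v hd m = 1 := by
      unfold v
      rw [l2, z_zero hd, if_neg (by omega)]
    rw [hv]
    split_ifs <;> omega
  have key : v hd n ≤ v hd m + 1 := by
    have hle := level_mono hd hmn.le
    rcases Nat.lt_or_ge (level hd m + 1) (level hd n) with h2 | h2
    · exfalso
      apply no_two' hd U hpal (by omega)
      rw [p_eq_pp hd (by omega)]
      have a := lt_level hd m
      have b := (pp_strictMono hd).monotone (show level hd m + 1 ≤ level hd n - 1 by omega)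
      omega
    · rcases Nat.eq_or_lt_of_le hle with h3 | h3
      · unfold v
        rw [← h3]
        split_ifs <;> omega
      · have h4 : level hd n = level hd m + 1 := by omega
        by_cases hm : m = z d (level hd m)
        · have hc := center' hd U hpal (k := level hd n) (by omega) (by omega) rfl
            (by rw [h4, Nat.add_sub_cancel]; exact hm)
          have hz := z_rec hd (level hd m)
          unfold v
          rw [h4] at hc ⊢
          rw [if_pos hm, if_pos (by omega)]
        · have := v_le hd U n
          have e : v hd m = level hd m + 1 := by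
            unfold v; rw [if_neg hm]
          omega
  unfold vb
  rw [if_neg hn1]
  omega

theorem upper' : ∀ n, 0 < n → ∃ m < n, Pal u m n ∧ vb hd n = vb hd m + 1 := by
  intro n hn
  have h6 := six_le hd
  obtain ⟨b, hb⟩ : ∃ b, b = level hd n := ⟨_, rfl⟩
  have hz0 := z_zero hd
  have hple := level_le hd n
  have hlt := lt_level hd n
  rw [← hb] at hple hlt
  rw [← p_eq_pp hd (by omega)] at hlt
  have z2 := z_lt2 hd b
  -- value of `vb` away from the exceptional position
  have vbz : ∀ c, vb hd (z d c) = c := by
    intro c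
    have hne : ¬ z d c + 1 = p d 1 := by
      rcases Nat.eq_zero_or_pos c with rfl | hc
      · rw [hz0]; omega
      · have := z_ge hd hc
        have := pm hd le_rfl hc
        omega
    unfold vb
    rw [v_z, if_neg hne, Nat.add_zero]
  by_cases hA : n + 1 = p d 1
  · -- the first one
    have l1 := level_zero hd U (n := n) (by omega)
    have l2 := level_zero hd U (n := n - 1) (by omega)
    refine ⟨n - 1, by omega, ?_, ?_⟩
    · intro x hx1 hx2
      have : x = n := by omega
      subst this
      congr 1
      omega
    · unfold vb v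
      rw [l1, l2, hz0, if_pos hA, if_neg (by omega), if_neg (by omega), if_neg (by omega)]
  by_cases hB : n = p d 1
  · have l2 := level_zero hd U (n := n - 2) (by omega)
    have l1 : level hd n = 1 := by
      apply level_unique hd
      · rw [← p_eq_pp hd (by omega)]; omega
      · rw [← p_eq_pp hd (by omega)]
        have := pgap5 hd (le_refl 1)
        omega
    have hz1 := z_ge hd (le_refl 1)
    refine ⟨n - 2, by omega, ?_, ?_⟩
    · have o1 : u n = true := by rw [hB]; exact one_mid hd U le_rfl
      have o2 : u (n - 1) = true := (U _).2 ⟨1, le_rfl, Or.inr ⟨rfl, Or.inl (by omega)⟩⟩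
      intro x hx1 hx2
      rcases (show x = n ∨ x = n - 1 by omega) with e | e
      · rw [e, o1, show n - 2 + n + 1 - n = n - 1 by omega, o2]
      · rw [e, o2, show n - 2 + n + 1 - (n - 1) = n by omega, o1]
    · unfold vb v
      rw [l1, l2, hz0, if_neg hA, if_neg (by omega), if_neg (by omega), if_neg (by omega)]
  have hvbn : vb hd n = v hd n := by unfold vb; rw [if_neg hA]; rfl
  by_cases hnz : n = z d b
  · -- the exceptional position
    have hb1 : 1 ≤ b := by
      by_contra hcon
      have : b = 0 := by omega
      rw [this, hz0] at hnz; omega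
    obtain ⟨c, rfl⟩ : ∃ c, b = c + 1 := ⟨b - 1, by omega⟩
    have hr := z_rec hd c
    have h1 := z_lt2 hd c
    refine ⟨z d c, ?_, ?_, ?_⟩
    · omega
    · apply pal_center hd U (b := c + 1) (by omega) _ (by omega) (by omega)
      rcases Nat.eq_zero_or_pos c with rfl | hc
      · left; rfl
      · right
        rw [Nat.add_sub_cancel]
        exact z_ge hd hc
    · rw [hnz, vbz, vbz]
  · have hv : v hd n = b + 1 := by
      unfold v; rw [← hb, if_neg hnz]
    rcases Nat.lt_or_ge (z d b) n with h1 | h1
    · by_cases hE : n + 1 = p d (b + 1) ∧ b % 2 = 0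
      · -- after the first one of a block of three
        obtain ⟨hE, hbe⟩ := hE
        have hb2 : 2 ≤ b := by
          by_contra hcon
          have : b = 0 := by omega
          rw [this] at hE
          exact hA hE
        have g5 := pgap5 hd (show 1 ≤ b by omega)
        have z3 := z_lt2 hd (b - 1)
        rw [Nat.sub_add_cancel (by omega)] at z3
        have g6 := pgap5 hd (show 1 ≤ b - 1 by omega)
        rw [Nat.sub_add_cancel (by omega)] at g6
        have hlm : level hd (p d b - 1) = b - 1 := by
          apply level_unique hd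
          · rw [← p_eq_pp hd (by omega)]; omega
          · rw [Nat.sub_add_cancel (by omega), ← p_eq_pp hd (by omega)]; omega
        refine ⟨p d b - 1, by omega, ?_, ?_⟩
        · have o1 : u (p d b) = true := one_mid hd U (by omega)
          have o2 : u n = true := (U _).2 ⟨b + 1, by omega, Or.inr ⟨by omega, Or.inl hE⟩⟩
          have o3 : ∀ x, p d b < x → x < n → u x = false := by
            intro x hx1 hx2
            by_contra hcon
            rw [Bool.not_eq_false] at hcon
            obtain ⟨k, hk, hx⟩ := (U x).1 hcon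
            rcases lt_trichotomy k b with h3 | h3 | h3
            · have := pm hd hk (show k ≤ b - 1 by omega)
              omega
            · rw [h3] at hx
              omega
            · have := pm hd (show 1 ≤ b + 1 by omega) (show b + 1 ≤ k by omega)
              omega
          intro x hx1 hx2
          rcases (show x = p d b ∨ x = n ∨ (p d b < x ∧ x < n) by omega) with e | e | ⟨e1, e2⟩
          · rw [e, o1, show p d b - 1 + n + 1 - p d b = n by omega, o2]
          · rw [e, o2, show p d b - 1 + n + 1 - n = p d b by omega, o1]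
          · rw [o3 x e1 e2, o3 _ (by omega) (by omega)]
        · rw [hvbn, hv]
          have h1b := pm hd le_rfl (show 1 ≤ b - 1 by omega)
          unfold vb v
          rw [hlm, if_neg (by omega), if_neg (by omega)]
          omega
      · refine ⟨z d b, h1, ?_, ?_⟩
        · apply pal_zero' hd U
          intro x hx1 hx2
          rcases Nat.eq_zero_or_pos b with hb0 | hb0
          · rw [hb0] at hE hlt
            apply loc0 hd U
            have e : 0 + 1 = 1 := rfl
            rw [e] at hE hlt
            omega
          · have hzb := z_ge hd hb0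
            by_contra hcon
            rw [Bool.not_eq_false] at hcon
            obtain ⟨k, hk, hx⟩ := (U x).1 hcon
            rcases lt_trichotomy k b with h3 | h3 | h3
            · have := pm hd hk (show k ≤ b by omega)
              omega
            · rw [h3] at hx
              omega
            · rcases Nat.eq_or_lt_of_le (show b + 1 ≤ k by omega) with h5 | h5
              · rw [← h5] at hx
                omega
              · have h7 := pm hd (show 1 ≤ b + 1 + 1 by omega) (show b + 1 + 1 ≤ k by omega)
                have h8 := pgap5 hd (show 1 ≤ b + 1 by omega)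
                omega
        · rw [hvbn, hv, vbz]
    · have h2 : n < z d b := by omega
      have hb1 : 1 ≤ b := by
        by_contra hcon
        have : b = 0 := by omega
        rw [this, hz0] at h2; omega
      obtain ⟨c, rfl⟩ : ∃ c, b = c + 1 := ⟨b - 1, by omega⟩
      have hr := z_rec hd c
      have h3 := pp_le_z hd c
      rw [← p_eq_pp hd hb1] at hple
      have hlm : level hd (2 * p d (c + 1) - 1 - n) = c := by
        apply level_unique hd
        · omega
        · rw [← p_eq_pp hd hb1]; omega
      refine ⟨2 * p d (c + 1) - 1 - n, by omega, ?_, ?_⟩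
      · apply pal_center hd U (b := c + 1) (by omega) _ (by omega) (by omega)
        rcases Nat.eq_zero_or_pos c with rfl | hc
        · left; rfl
        · right
          rw [Nat.add_sub_cancel]
          have := z_ge hd hc
          omega
      · rw [hvbn, hv]
        unfold vb v
        rw [hlm, if_neg (by omega), if_neg]
        rcases Nat.eq_zero_or_pos c with rfl | hc
        · intro hcon
          apply hB
          have e : 0 + 1 = 1 := rfl
          rw [e] at hcon
          omega
        · have h7 := pm hd le_rfl (show 1 ≤ c by omega)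
          rw [← p_eq_pp hd hc] at h3
          omega

theorem PPL_formula' (n : ℕ) : PPL u n = vb hd n := by
  apply PPL_eq u (vb hd)
  · have h := v_z hd 0
    rw [z_zero hd] at h
    unfold vb
    rw [h, if_neg (by have := six_le hd; omega)]
  · exact lower' hd U
  · exact upper' hd U

end level

end Pool.Agent.Y350.PP
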