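import Mathlib
import Pool.Agent.Y350.PP.Bin

/-!
# The binary word is automatic
-/

set_option autoImplicit false
set_option linter.unusedSectionVars false

namespace Pool.Agent.Y350.PP

open Pool.Agent.Results.MP_f91ac8_co.NotRegular

/-- transitions of the automaton in base `d` (state 6 is a sink) -/
def db (d : ℕ) (q : Fin 10) (a : ℕ) : Fin 10 :=
  if q = 0 then (if a = 1 then 1 else 6)
  else if q = 1 then (if a = 1 then 2 else if a = 0 then 7 else 6)
  else if q = 2 then (if a = 0 then 3 else if a = 1 then 5 else 6)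
  else if q = 3 then (if a = 0 then 4 else if a = 1 then 5 else 6)
  else if q = 4 then (if a = 0 then 3 else if a = 1 then 5 else 6)
  else if q = 7 then (if a + 1 = d then 8 else 6)
  else if q = 8 then (if a + 1 = d then 9 else 6)
  else if q = 9 then (if a + 1 = d then 8 else 6)
  else 6

/-- output map -/
def outb (q : Fin 10) : Bool := decide (q = 3 ∨ q = 5 ∨ q = 8)

/-- state reached on the base-`d` expansion of `n` -/
def sb (d n : ℕ) : Fin 10 := (Nat.digits d n).reverse.foldl (db d) 0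

/-- the binary word -/
def wb (d n : ℕ) : Bool := outb (sb d n)

theorem sb_zero (d : ℕ) : sb d 0 = 0 := by
  unfold sb; simp

theorem sb_rec {d : ℕ} (hd : 2 ≤ d) {n : ℕ} (hn : 0 < n) :
    sb d n = db d (sb d (n / d)) (n % d) := by
  unfold sb
  rw [Nat.digits_def' (by omega) hn, List.reverse_cons, List.foldl_append]
  rfl

theorem sb_mul_add {d : ℕ} (hd : 2 ≤ d) (m r : ℕ) (hr : r < d) (h : 0 < d * m + r) :
    sb d (d * m + r) = db d (sb d m) r := by
  rw [sb_rec hd h]
  have h1 : (d * m + r) / d = m := by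
    rw [Nat.mul_add_div (by omega), Nat.div_eq_of_lt hr, add_zero]
  have h2 : (d * m + r) % d = r := by
    rw [Nat.mul_add_mod]; exact Nat.mod_eq_of_lt hr
  rw [h1, h2]

theorem db_ne0 (d : ℕ) (q : Fin 10) (a : ℕ) : db d q a ≠ 0 := by
  unfold db; split_ifs <;> decide

theorem db_eq1 {d : ℕ} {q : Fin 10} {a : ℕ} (h : db d q a = 1) : q = 0 ∧ a = 1 := by
  unfold db at h; split_ifs at h <;> first | exact absurd h (by decide) | exact ⟨by assumption, by assumption⟩

theorem db_eq2 {d : ℕ} {q : Fin 10} {a : ℕ} (h : db d q a = 2) : q = 1 ∧ a = 1 := by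
  unfold db at h; split_ifs at h <;> first | exact absurd h (by decide) | exact ⟨by assumption, by assumption⟩

theorem db_eq3 {d : ℕ} {q : Fin 10} {a : ℕ} (h : db d q a = 3) : (q = 2 ∨ q = 4) ∧ a = 0 := by
  unfold db at h; split_ifs at h <;> first | exact absurd h (by decide) | exact ⟨Or.inl (by assumption), by assumption⟩ | exact ⟨Or.inr (by assumption), by assumption⟩

theorem db_eq4 {d : ℕ} {q : Fin 10} {a : ℕ} (h : db d q a = 4) : q = 3 ∧ a = 0 := by
  unfold db at h; split_ifs at h <;> first | exact absurd h (by decide) | exact ⟨by assumption, by assumption⟩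

theorem db_eq5 {d : ℕ} {q : Fin 10} {a : ℕ} (h : db d q a = 5) :
    (q = 2 ∨ q = 3 ∨ q = 4) ∧ a = 1 := by
  unfold db at h; split_ifs at h <;> first | exact absurd h (by decide) | exact ⟨Or.inl (by assumption), by assumption⟩ | exact ⟨Or.inr (Or.inl (by assumption)), by assumption⟩ | exact ⟨Or.inr (Or.inr (by assumption)), by assumption⟩

theorem db_eq7 {d : ℕ} {q : Fin 10} {a : ℕ} (h : db d q a = 7) : q = 1 ∧ a = 0 := by
  unfold db at h; split_ifs at h <;> first | exact absurd h (by decide) | exact ⟨by assumption, by assumption⟩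

theorem db_eq8 {d : ℕ} {q : Fin 10} {a : ℕ} (h : db d q a = 8) : (q = 7 ∨ q = 9) ∧ a + 1 = d := by
  unfold db at h; split_ifs at h <;> first | exact absurd h (by decide) | exact ⟨Or.inl (by assumption), by assumption⟩ | exact ⟨Or.inr (by assumption), by assumption⟩

theorem db_eq9 {d : ℕ} {q : Fin 10} {a : ℕ} (h : db d q a = 9) : q = 8 ∧ a + 1 = d := by
  unfold db at h; split_ifs at h <;> first | exact absurd h (by decide) | exact ⟨by assumption, by assumption⟩

theorem sb_forward {d : ℕ} (hd : 2 ≤ d) (n : ℕ) :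
    (sb d n = 0 → n = 0) ∧ (sb d n = 1 → n = 1) ∧ (sb d n = 2 → n = d + 1) ∧
    (sb d n = 3 → ∃ j, n = (d + 1) * d ^ (2 * j + 1)) ∧
    (sb d n = 4 → ∃ j, n = (d + 1) * d ^ (2 * j + 2)) ∧
    (sb d n = 5 → ∃ k, n = (d + 1) * d ^ (k + 1) + 1) ∧
    (sb d n = 7 → n = d) ∧
    (sb d n = 8 → ∃ j, n + 1 = (d + 1) * d ^ (2 * j + 1)) ∧
    (sb d n = 9 → ∃ j, n + 1 = (d + 1) * d ^ (2 * j + 2)) := by
  induction n using Nat.strong_induction_on with
  | _ n ih =>
    rcases Nat.eq_zero_or_pos n with rfl | hn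
    · rw [sb_zero]
      refine ⟨fun _ => rfl, ?_, ?_, ?_, ?_, ?_, ?_, ?_, ?_⟩ <;> intro h <;>
        exact absurd h (by decide)
    · rw [sb_rec hd hn]
      obtain ⟨i0, i1, i2, i3, i4, i5, i7, i8, i9⟩ := ih (n / d) (Nat.div_lt_self hn (by omega))
      have e := Nat.div_add_mod n d
      refine ⟨fun h => absurd h (db_ne0 _ _ _), ?_, ?_, ?_, ?_, ?_, ?_, ?_, ?_⟩
      · intro h
        obtain ⟨h1, h2⟩ := db_eq1 h
        rw [i0 h1, h2] at e; omega
      · intro h
        obtain ⟨h1, h2⟩ := db_eq2 h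
        rw [i1 h1, h2] at e; omega
      · intro h
        obtain ⟨h1 | h1, h2⟩ := db_eq3 h
        · rw [i2 h1, h2] at e
          exact ⟨0, by rw [← e]; ring⟩
        · obtain ⟨j, hj⟩ := i4 h1
          rw [hj, h2] at e
          exact ⟨j + 1, by rw [← e]; ring⟩
      · intro h
        obtain ⟨h1, h2⟩ := db_eq4 h
        obtain ⟨j, hj⟩ := i3 h1
        rw [hj, h2] at e
        exact ⟨j, by rw [← e]; ring⟩
      · intro h
        obtain ⟨h1 | h1 | h1, h2⟩ := db_eq5 h
        · rw [i2 h1, h2] at e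
          exact ⟨0, by rw [← e]; ring⟩
        · obtain ⟨j, hj⟩ := i3 h1
          rw [hj, h2] at e
          exact ⟨2 * j + 1, by rw [← e]; ring⟩
        · obtain ⟨j, hj⟩ := i4 h1
          rw [hj, h2] at e
          exact ⟨2 * j + 2, by rw [← e]; ring⟩
      · intro h
        obtain ⟨h1, h2⟩ := db_eq7 h
        rw [i1 h1, h2] at e; omega
      · intro h
        obtain ⟨h1 | h1, h2⟩ := db_eq8 h
        · rw [i7 h1] at e
          have e2 : n + 1 = d * d + d := by omega
          exact ⟨0, by rw [e2]; ring⟩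
        · obtain ⟨j, hj⟩ := i9 h1
          have e2 : n + 1 = d * (n / d + 1) := by rw [Nat.mul_succ]; omega
          rw [hj] at e2
          exact ⟨j + 1, by rw [e2]; ring⟩
      · intro h
        obtain ⟨h1, h2⟩ := db_eq9 h
        obtain ⟨j, hj⟩ := i8 h1
        have e2 : n + 1 = d * (n / d + 1) := by rw [Nat.mul_succ]; omega
        rw [hj] at e2
        exact ⟨j, by rw [e2]; ring⟩

theorem sb_34 {d : ℕ} (hd : 2 ≤ d) (j : ℕ) : sb d ((d + 1) * d ^ (2 * j + 1)) = 3 ∧
    sb d ((d + 1) * d ^ (2 * j + 2)) = 4 := by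
  have s1 : sb d 1 = 1 := by
    have := sb_mul_add hd 0 1 (by omega) (by omega)
    rw [sb_zero, mul_zero, zero_add] at this
    rw [this]; simp [db]
  have s2 : sb d (d + 1) = 2 := by
    have := sb_mul_add hd 1 1 (by omega) (by omega)
    rw [s1, mul_one] at this
    rw [this]; simp [db]
  have step : ∀ m, 0 < m → sb d (m * d) = db d (sb d m) 0 := by
    intro m hm
    have := sb_mul_add hd m 0 (by omega) (by positivity)
    rw [add_zero, mul_comm] at this
    exact this
  have four : ∀ j, sb d ((d + 1) * d ^ (2 * j + 1)) = 3 → sb d ((d + 1) * d ^ (2 * j + 2)) = 4 := by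
    intro j h
    have := step ((d + 1) * d ^ (2 * j + 1)) (by positivity)
    rw [h] at this
    rw [show (d + 1) * d ^ (2 * j + 2) = (d + 1) * d ^ (2 * j + 1) * d by ring, this]
    simp [db]
  induction j with
  | zero =>
    have h3 : sb d ((d + 1) * d ^ (2 * 0 + 1)) = 3 := by
      have := step (d + 1) (by omega)
      rw [s2] at this
      rw [show (d + 1) * d ^ (2 * 0 + 1) = (d + 1) * d by ring, this]
      simp [db]
    exact ⟨h3, four 0 h3⟩
  | succ j ih =>
    have h3 : sb d ((d + 1) * d ^ (2 * (j + 1) + 1)) = 3 := by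
      have := step ((d + 1) * d ^ (2 * j + 2)) (by positivity)
      rw [ih.2] at this
      rw [show (d + 1) * d ^ (2 * (j + 1) + 1) = (d + 1) * d ^ (2 * j + 2) * d by ring, this]
      simp [db]
    exact ⟨h3, four (j + 1) h3⟩

theorem sb_5 {d : ℕ} (hd : 2 ≤ d) (k : ℕ) : sb d ((d + 1) * d ^ (k + 1) + 1) = 5 := by
  have h := sb_mul_add hd ((d + 1) * d ^ k) 1 (by omega) (by positivity)
  rw [show (d + 1) * d ^ (k + 1) + 1 = d * ((d + 1) * d ^ k) + 1 by ring, h]
  rcases Nat.eq_zero_or_pos k with rfl | hk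
  · have s1 : sb d 1 = 1 := by
      have := sb_mul_add hd 0 1 (by omega) (by omega)
      rw [sb_zero, mul_zero, zero_add] at this
      rw [this]; simp [db]
    have s2 : sb d (d + 1) = 2 := by
      have := sb_mul_add hd 1 1 (by omega) (by omega)
      rw [s1, mul_one] at this
      rw [this]; simp [db]
    rw [pow_zero, mul_one, s2]
    simp [db]
  · rcases Nat.mod_two_eq_zero_or_one k with h2 | h2
    · obtain ⟨j, rfl⟩ : ∃ j, k = 2 * j + 2 := ⟨k / 2 - 1, by omega⟩
      rw [(sb_34 hd j).2]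
      simp [db]
    · obtain ⟨j, rfl⟩ : ∃ j, k = 2 * j + 1 := ⟨k / 2, by omega⟩
      rw [(sb_34 hd j).1]
      simp [db]

theorem sb_89 {d : ℕ} (hd : 2 ≤ d) (j : ℕ) :
    (∀ n, n + 1 = (d + 1) * d ^ (2 * j + 1) → sb d n = 8) ∧
    (∀ n, n + 1 = (d + 1) * d ^ (2 * j + 2) → sb d n = 9) := by
  have s1 : sb d 1 = 1 := by
    have := sb_mul_add hd 0 1 (by omega) (by omega)
    rw [sb_zero, mul_zero, zero_add] at this
    rw [this]; simp [db]
  have s7 : sb d d = 7 := by
    have := sb_mul_add hd 1 0 (by omega) (by omega)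
    rw [s1, mul_one, add_zero] at this
    rw [this]; simp [db]
  have step : ∀ m q, sb d m = q → ∀ n, n + 1 = d * (m + 1) → sb d n = db d q (d - 1) := by
    intro m q hq n hn
    have h := sb_mul_add hd m (d - 1) (by omega) (by omega)
    rw [hq] at h
    rw [← h]
    congr 1
    have : d * (m + 1) = d * m + d := by ring
    omega
  have nine : ∀ j, (∀ n, n + 1 = (d + 1) * d ^ (2 * j + 1) → sb d n = 8) →
      ∀ n, n + 1 = (d + 1) * d ^ (2 * j + 2) → sb d n = 9 := by
    intro j h n hn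
    have h1 : 0 < (d + 1) * d ^ (2 * j + 1) := by positivity
    have h2 := h ((d + 1) * d ^ (2 * j + 1) - 1) (by omega)
    rw [step _ _ h2 n (by rw [Nat.sub_add_cancel h1, hn]; ring)]
    have e : d - 1 + 1 = d := by omega
    simp [db, e]
  induction j with
  | zero =>
    have h3 : ∀ n, n + 1 = (d + 1) * d ^ (2 * 0 + 1) → sb d n = 8 := by
      intro n hn
      rw [step _ _ s7 n (by rw [hn]; ring)]
      have e : d - 1 + 1 = d := by omega
      simp [db, e]
    exact ⟨h3, nine 0 h3⟩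
  | succ j ih =>
    have h3 : ∀ n, n + 1 = (d + 1) * d ^ (2 * (j + 1) + 1) → sb d n = 8 := by
      intro n hn
      have h1 : 0 < (d + 1) * d ^ (2 * j + 2) := by positivity
      have h2 := ih.2 ((d + 1) * d ^ (2 * j + 2) - 1) (by omega)
      rw [step _ _ h2 n (by rw [Nat.sub_add_cancel h1, hn]; ring)]
      have e : d - 1 + 1 = d := by omega
      simp [db, e]
    exact ⟨h3, nine (j + 1) h3⟩

theorem wb_isB {d : ℕ} (hd : 2 ≤ d) : IsB d (wb d) := by
  intro x
  unfold wb outb
  rw [decide_eq_true_iff]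
  constructor
  · obtain ⟨_, _, _, h3, _, h5, _, h8, _⟩ := sb_forward hd x
    rintro (h | h | h)
    · obtain ⟨j, hj⟩ := h3 h
      exact ⟨2 * j + 1, by omega, Or.inl (by rw [hj, p_odd hd (by omega)])⟩
    · obtain ⟨k, hk⟩ := h5 h
      refine ⟨k + 1, by omega, ?_⟩
      rcases Nat.mod_two_eq_zero_or_one (k + 1) with h2 | h2
      · left; rw [p_even hd h2]; exact hk
      · right; rw [p_odd hd h2]; exact ⟨h2, Or.inr hk⟩
    · obtain ⟨j, hj⟩ := h8 h
      exact ⟨2 * j + 1, by omega, Or.inr ⟨by omega, Or.inl (by rw [hj, p_odd hd (by omega)])⟩⟩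
  · rintro ⟨k, hk, h | ⟨ho, h | h⟩⟩
    · rcases Nat.mod_two_eq_zero_or_one k with h2 | h2
      · right; left
        obtain ⟨l, rfl⟩ : ∃ l, k = l + 1 := ⟨k - 1, by omega⟩
        rw [h, p_even hd h2]
        exact sb_5 hd l
      · left
        obtain ⟨j, rfl⟩ : ∃ j, k = 2 * j + 1 := ⟨k / 2, by omega⟩
        rw [h, p_odd hd h2]
        exact (sb_34 hd j).1
    · right; right
      obtain ⟨j, rfl⟩ : ∃ j, k = 2 * j + 1 := ⟨k / 2, by omega⟩
      exact (sb_89 hd j).1 x (by rw [h, p_odd hd ho])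
    · right; left
      obtain ⟨l, rfl⟩ : ∃ l, k = l + 1 := ⟨k - 1, by omega⟩
      rw [h, p_odd hd ho]
      exact sb_5 hd l

theorem wb_automatic (d : ℕ) : IsAutomatic d (wb d) := ⟨10, 0, db d, outb, fun _ => rfl⟩

end Pool.Agent.Y350.PP
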